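import Mathlib

/-!
# Irreducible complex characters of a finite group

`Irr G` is the set of irreducible complex characters of `G`, as functions `G → ℂ`.
-/

namespace Pool.Agent.Helper80

open Representation Module

variable {G : Type*} [Group G]

/-- The irreducible complex characters of `G`: the characters of the irreducible
representations of `G` on the spaces `ℂ^n`. -/
def Irr (G : Type*) [Group G] : Set (G → ℂ) :=
  {χ | ∃ (n : ℕ) (ρ : Representation ℂ G (Fin n → ℂ)), ρ.IsIrreducible ∧ χ = ρ.character}

/-- The degree `χ(1)` as a natural number. -/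
noncomputable def deg (χ : G → ℂ) : ℕ := ⌊(χ 1).re⌋₊

/-- transport of a representation along a linear equivalence -/
noncomputable def conjRep {V W : Type*} [AddCommGroup V] [Module ℂ V] [AddCommGroup W] [Module ℂ W]
    (ρ : Representation ℂ G V) (e : V ≃ₗ[ℂ] W) : Representation ℂ G W where
  toFun g := e.conj (ρ g)
  map_one' := by ext x; simp
  map_mul' x y := by ext v; simp

theorem conjRep_apply {V W : Type*} [AddCommGroup V] [Module ℂ V] [AddCommGroup W] [Module ℂ W]
    (ρ : Representation ℂ G V) (e : V ≃ₗ[ℂ] W) (g : G) (w : W) :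
    conjRep ρ e g w = e (ρ g (e.symm w)) := by
  simp [conjRep]

/-- A convenient criterion for irreducibility. -/
theorem isIrreducible_iff {V : Type*} [AddCommGroup V] [Module ℂ V] (ρ : Representation ℂ G V) :
    ρ.IsIrreducible ↔ Nontrivial V ∧ ∀ W : Submodule ℂ V, (∀ g, ∀ w ∈ W, ρ g w ∈ W) →
      W = ⊥ ∨ W = ⊤ := by
  constructor
  · intro h
    refine ⟨?_, ?_⟩
    · by_contra hn
      rw [not_nontrivial_iff_subsingleton] at hn
      have h1 : (⊥ : Subrepresentation ρ) ≠ ⊤ := bot_ne_top
      apply h1
      apply Subrepresentation.toSubmodule_injective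
      exact Subsingleton.elim _ _
    · intro W hW
      have := eq_bot_or_eq_top (⟨W, fun g v hv => hW g v hv⟩ : Subrepresentation ρ)
      rcases this with h1 | h1
      · left
        exact congrArg Subrepresentation.toSubmodule h1
      · right
        exact congrArg Subrepresentation.toSubmodule h1
  · rintro ⟨hn, h⟩
    have : Nontrivial (Subrepresentation ρ) := by
      refine ⟨⊥, ⊤, ?_⟩
      intro h1
      have h2 := congrArg Subrepresentation.toSubmodule h1
      have h3 : (⊥ : Submodule ℂ V) = ⊤ := h2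
      exact bot_ne_top h3
    refine ⟨fun W => ?_⟩
    rcases h W.toSubmodule (fun g w hw => W.apply_mem_toSubmodule g hw) with h1 | h1
    · left
      exact Subrepresentation.toSubmodule_injective h1
    · right
      exact Subrepresentation.toSubmodule_injective h1

theorem conjRep_isIrreducible {V W : Type*} [AddCommGroup V] [Module ℂ V] [AddCommGroup W]
    [Module ℂ W] (ρ : Representation ℂ G V) (e : V ≃ₗ[ℂ] W) (h : ρ.IsIrreducible) :
    (conjRep ρ e).IsIrreducible := by
  rw [isIrreducible_iff] at h ⊢
  obtain ⟨hn, h⟩ := h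
  refine ⟨e.injective.nontrivial, ?_⟩
  intro U hU
  rcases h (U.comap (e : V →ₗ[ℂ] W)) (by
    intro g w hw
    have := hU g _ hw
    rw [Submodule.mem_comap]
    simpa [conjRep_apply] using this) with h1 | h1
  · left
    rw [Submodule.eq_bot_iff] at h1 ⊢
    intro x hx
    have := h1 (e.symm x) (by simpa using hx)
    simpa using this
  · right
    rw [Submodule.eq_top_iff'] at h1 ⊢
    intro x
    simpa using h1 (e.symm x)

theorem conjRep_character {V W : Type*} [AddCommGroup V] [Module ℂ V] [AddCommGroup W]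
    [Module ℂ W] (ρ : Representation ℂ G V) (e : V ≃ₗ[ℂ] W) :
    (conjRep ρ e).character = ρ.character := by
  ext g
  simp only [character]
  exact LinearMap.trace_conj' _ _

/-- The character of any finite-dimensional irreducible representation lies in `Irr G`. -/
theorem character_mem_Irr {V : Type*} [AddCommGroup V] [Module ℂ V] [FiniteDimensional ℂ V]
    (ρ : Representation ℂ G V) (h : ρ.IsIrreducible) : ρ.character ∈ Irr G := by
  refine ⟨finrank ℂ V, conjRep ρ (LinearEquiv.ofFinrankEq _ _ (by simp)),
    conjRep_isIrreducible ρ _ h, ?_⟩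
  rw [conjRep_character]

theorem deg_character {V : Type*} [AddCommGroup V] [Module ℂ V] [FiniteDimensional ℂ V]
    (ρ : Representation ℂ G V) : deg ρ.character = finrank ℂ V := by
  simp [deg]

theorem apply_one_eq_deg {χ : G → ℂ} (h : χ ∈ Irr G) : χ 1 = deg χ := by
  obtain ⟨n, ρ, _, rfl⟩ := h
  rw [deg_character]
  simp

theorem deg_pos {χ : G → ℂ} (h : χ ∈ Irr G) : 0 < deg χ := by
  obtain ⟨n, ρ, hρ, rfl⟩ := h
  rw [deg_character]
  rw [isIrreducible_iff] at hρ
  have := hρ.1
  exact Module.finrank_pos

variable [Fintype G]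

/-- the (bilinear) scalar product of functions on the group -/
noncomputable def ip (φ ψ : G → ℂ) : ℂ := (Nat.card G : ℂ)⁻¹ * ∑ g : G, φ g * ψ g⁻¹

theorem ip_add_left (φ φ' ψ : G → ℂ) : ip (φ + φ') ψ = ip φ ψ + ip φ' ψ := by
  simp only [ip, Pi.add_apply, add_mul, Finset.sum_add_distrib, mul_add]

theorem ip_smul_left (c : ℂ) (φ ψ : G → ℂ) : ip (c • φ) ψ = c * ip φ ψ := by
  simp only [ip, Pi.smul_apply, smul_eq_mul, Finset.mul_sum]
  apply Finset.sum_congr rfl
  intro g _
  ring

theorem ip_zero_left (ψ : G → ℂ) : ip (0 : G → ℂ) ψ = 0 := by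
  simp [ip]

theorem ip_sum_left {ι : Type*} (s : Finset ι) (f : ι → G → ℂ) (ψ : G → ℂ) :
    ip (∑ i ∈ s, f i) ψ = ∑ i ∈ s, ip (f i) ψ := by
  classical
  induction s using Finset.induction_on with
  | empty => simp [ip_zero_left]
  | insert a s ha ih => rw [Finset.sum_insert ha, Finset.sum_insert ha, ip_add_left, ih]

noncomputable instance : Invertible (Nat.card G : ℂ) :=
  invertibleOfNonzero (by exact_mod_cast Nat.card_pos.ne')

theorem ip_self {χ : G → ℂ} (h : χ ∈ Irr G) : ip χ χ = 1 := by
  obtain ⟨n, ρ, hρ, rfl⟩ := h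
  have := hρ
  have := char_orthonormal ρ ρ
  rw [if_pos ⟨Representation.Equiv.refl ρ⟩] at this
  exact this

theorem ip_ne {χ ψ : G → ℂ} (h : χ ∈ Irr G) (h' : ψ ∈ Irr G) (hne : χ ≠ ψ) : ip χ ψ = 0 := by
  obtain ⟨n, ρ, hρ, rfl⟩ := h
  obtain ⟨m, σ, hσ, rfl⟩ := h'
  have := hρ
  have := hσ
  have := char_orthonormal ρ σ
  rw [if_neg] at this
  · exact this
  · rintro ⟨e⟩
    exact hne (char_iso e).symm

/-- Irreducible representations with the same character are equivalent. -/
theorem exists_equiv_of_character_eq {V W : Type*} [AddCommGroup V] [Module ℂ V]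
    [FiniteDimensional ℂ V] [AddCommGroup W] [Module ℂ W] [FiniteDimensional ℂ W]
    (ρ : Representation ℂ G V) (σ : Representation ℂ G W) (hρ : ρ.IsIrreducible)
    (hσ : σ.IsIrreducible) (h : ρ.character = σ.character) : Nonempty (Representation.Equiv σ ρ) := by
  have := hρ
  have := hσ
  have h1 := char_orthonormal ρ σ
  by_contra hn
  rw [if_neg hn, ← h] at h1
  have h2 := ip_self (character_mem_Irr ρ hρ)
  rw [ip, h1] at h2
  exact zero_ne_one h2

theorem linearIndependent_Irr : LinearIndependent ℂ (fun χ : Irr G => (χ : G → ℂ)) := by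
  classical
  rw [linearIndependent_iff']
  intro s c hc χ hχ
  have h1 : ip (∑ i ∈ s, c i • (i : G → ℂ)) (χ : G → ℂ) = 0 := by
    rw [hc, ip_zero_left]
  rw [ip_sum_left] at h1
  rw [Finset.sum_eq_single χ] at h1
  · rw [ip_smul_left, ip_self χ.2, mul_one] at h1
    exact h1
  · intro ψ _ hne
    rw [ip_smul_left, ip_ne ψ.2 χ.2 (fun h => hne (Subtype.ext h)), mul_zero]
  · intro h
    exact absurd hχ h

instance finite_Irr : Finite (Irr G) :=
  (linearIndependent_Irr (G := G)).finite

omit [Fintype G] in
/-- the character is additive on complementary subrepresentations -/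
theorem character_eq_add {V : Type*} [AddCommGroup V] [Module ℂ V] [FiniteDimensional ℂ V]
    (ρ : Representation ℂ G V) (W W' : Subrepresentation ρ) (h : IsCompl W.toSubmodule W'.toSubmodule) :
    ρ.character = W.toRepresentation.character + W'.toRepresentation.character := by
  ext g
  let e := W.toSubmodule.prodEquivOfIsCompl W'.toSubmodule h
  have h1 : LinearMap.trace ℂ V (ρ g) =
      LinearMap.trace ℂ (W.toSubmodule × W'.toSubmodule) (e.symm.conj (ρ g)) :=
    (LinearMap.trace_conj' _ _).symm
  have h2 : e.symm.conj (ρ g) =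
      LinearMap.prodMap (W.toRepresentation g) (W'.toRepresentation g) := by
    apply LinearMap.ext
    rintro ⟨x, y⟩
    have h3 : e.symm.conj (ρ g) (x, y) = e.symm (ρ g (e (x, y))) := by
      simp [LinearEquiv.conj_apply]
    rw [h3, LinearEquiv.symm_apply_eq]
    simp [e, Subrepresentation.toRepresentation, LinearMap.restrict_apply]
  simp only [character, Pi.add_apply]
  rw [h1, h2, LinearMap.trace_prodMap']

/-- Every character is a sum of irreducible characters. -/
theorem exists_multiset {V : Type*} [AddCommGroup V] [Module ℂ V] [FiniteDimensional ℂ V]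
    (ρ : Representation ℂ G V) :
    ∃ s : Multiset (G → ℂ), (∀ χ ∈ s, χ ∈ Irr G) ∧ ρ.character = s.sum := by
  induction hn : finrank ℂ V using Nat.strong_induction_on generalizing V with
  | _ n ih =>
    by_cases h0 : Subsingleton V
    · refine ⟨0, by simp, ?_⟩
      ext g
      have : ρ g = 0 := by
        ext v
        exact Subsingleton.elim _ _
      simp [character, this]
    rw [not_subsingleton_iff_nontrivial] at h0
    by_cases hirr : ρ.IsIrreducible
    · refine ⟨{ρ.character}, ?_, by simp⟩
      intro χ hχ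
      rw [Multiset.mem_singleton] at hχ
      rw [hχ]
      exact character_mem_Irr ρ hirr
    · rw [isIrreducible_iff] at hirr
      push Not at hirr
      obtain ⟨W, hW, hb, ht⟩ := hirr h0
      let W1 : Subrepresentation ρ := ⟨W, fun g v hv => hW g v hv⟩
      obtain ⟨W2, hc⟩ := exists_isCompl W1
      have hc' : IsCompl W1.toSubmodule W2.toSubmodule := by
        refine IsCompl.of_eq ?_ ?_
        · exact congrArg Subrepresentation.toSubmodule hc.inf_eq_bot
        · exact congrArg Subrepresentation.toSubmodule hc.sup_eq_top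
      have hd := Submodule.finrank_add_eq_of_isCompl hc'
      have h1 : 0 < finrank ℂ W1.toSubmodule := by
        rw [Module.finrank_pos_iff]
        exact (Submodule.nontrivial_iff_ne_bot).2 hb
      have h2 : finrank ℂ W1.toSubmodule < finrank ℂ V :=
        Submodule.finrank_lt ht
      obtain ⟨s1, hs1, hs1'⟩ := ih (finrank ℂ W1.toSubmodule) (by omega) W1.toRepresentation rfl
      obtain ⟨s2, hs2, hs2'⟩ := ih (finrank ℂ W2.toSubmodule) (by omega) W2.toRepresentation rfl
      refine ⟨s1 + s2, ?_, ?_⟩
      · intro χ hχ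
        rcases Multiset.mem_add.1 hχ with h | h
        · exact hs1 χ h
        · exact hs2 χ h
      · rw [character_eq_add ρ W1 W2 hc', hs1', hs2', Multiset.sum_add]

theorem ip_comm (φ ψ : G → ℂ) : ip φ ψ = ip ψ φ := by
  simp only [ip]
  congr 1
  rw [← Equiv.sum_comp (Equiv.inv G)]
  apply Finset.sum_congr rfl
  intro g _
  simp [mul_comm]

open scoped Classical in
theorem ip_multiset_sum (s : Multiset (G → ℂ)) (hs : ∀ χ ∈ s, χ ∈ Irr G) {ψ : G → ℂ}
    (hψ : ψ ∈ Irr G) : ip s.sum ψ = (s.count ψ : ℂ) := by
  induction s using Multiset.induction_on with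
  | empty => simp [ip_zero_left]
  | cons a s ih =>
    rw [Multiset.sum_cons, ip_add_left, ih (fun χ hχ => hs χ (Multiset.mem_cons_of_mem hχ))]
    by_cases h : a = ψ
    · subst h
      rw [ip_self hψ, Multiset.count_cons_self]
      push_cast
      ring
    · rw [ip_ne (hs a (Multiset.mem_cons_self a s)) hψ h,
        Multiset.count_cons_of_ne (fun h' => h h'.symm)]
      ring

theorem ip_leftRegular {ψ : G → ℂ} (hψ : ψ ∈ Irr G) :
    ip (leftRegular ℂ G).character ψ = deg ψ := by
  obtain ⟨n, σ, hσ, rfl⟩ := hψ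
  rw [ip_comm, ip, card_inv_mul_sum_char_mul_char_eq_finrank, deg_character,
    (leftRegularMapEquiv σ).finrank_eq]

open scoped Classical in
/-- The sum of the squares of the degrees is the order of the group. -/
theorem sum_deg_sq [Fintype (Irr G)] : ∑ χ : Irr G, (deg (χ : G → ℂ)) ^ 2 = Nat.card G := by
  obtain ⟨s, hs, hsum⟩ := exists_multiset (leftRegular ℂ G)
  have hcount : ∀ χ : G → ℂ, χ ∈ Irr G → s.count χ = deg χ := by
    intro χ hχ
    have h1 := ip_multiset_sum s hs hχ
    rw [← hsum, ip_leftRegular hχ] at h1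
    exact_mod_cast h1.symm
  have h1 : (leftRegular ℂ G).character 1 = Nat.card G := by
    rw [char_one]
    have h5 : finrank ℂ (MonoidAlgebra ℂ G) = finrank ℂ (G →₀ ℂ) :=
      (MonoidAlgebra.coeffLinearEquiv ℂ).finrank_eq
    rw [h5, Module.finrank_finsupp_self, Fintype.card_eq_nat_card]
  have h2 : s.sum = ∑ χ ∈ s.toFinset, s.count χ • χ := Finset.sum_multiset_count s
  have h3 : s.toFinset = Finset.univ.image (fun χ : Irr G => (χ : G → ℂ)) := by
    ext χ
    rw [Multiset.mem_toFinset, Finset.mem_image]
    constructor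
    · intro h
      exact ⟨⟨χ, hs χ h⟩, Finset.mem_univ _, rfl⟩
    · rintro ⟨χ', _, rfl⟩
      rw [← Multiset.count_pos, hcount _ χ'.2]
      exact deg_pos χ'.2
  have h4 : (Nat.card G : ℂ) = ∑ χ : Irr G, ((deg (χ : G → ℂ) : ℕ) : ℂ) ^ 2 := by
    rw [← h1, hsum, h2, h3, Finset.sum_image (by intro a _ b _ h; exact Subtype.ext h),
      Finset.sum_apply]
    apply Finset.sum_congr rfl
    intro χ _
    rw [hcount _ χ.2, Pi.smul_apply, apply_one_eq_deg χ.2]
    simp [sq]
  exact_mod_cast h4.symm

end Pool.Agent.Helper80
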