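import Mathlib
import Pool.Agent.Helper80.IrrChar

/-!
# Degrees of `p'`-characters: counting modulo `p`
-/

namespace Pool.Agent.Helper80

open Representation Module

/-- The irreducible complex characters of degree not divisible by `p`. -/
def IrrP (p : ℕ) (G : Type*) [Group G] : Set (G → ℂ) := {χ ∈ Irr G | ¬ p ∣ deg χ}

/-- The number of irreducible characters of degree prime to `p` whose degree is `±c` mod `p`. -/
noncomputable def cnt (p : ℕ) (G : Type*) [Group G] (c : ZMod p) : ℕ :=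
  Nat.card {χ : IrrP p G // (deg (χ : G → ℂ) : ZMod p) = c ∨ (deg (χ : G → ℂ) : ZMod p) = -c}

variable {G : Type*} [Group G]

theorem finite_Irr' [Finite G] : Finite (Irr G) := by
  have := Fintype.ofFinite G
  infer_instance

instance finite_IrrP [Finite G] (p : ℕ) : Finite (IrrP p G) := by
  have := finite_Irr' (G := G)
  exact Set.Finite.subset (Set.toFinite (Irr G)) (fun χ hχ => hχ.1)

open scoped Classical in
/-- the sum of the squares of the degrees of the `p'`-characters vanishes mod `p` -/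
theorem sum_sq_zero [Finite G] (p : ℕ) [Fact p.Prime] (hp : p ∣ Nat.card G)
    [Fintype (IrrP p G)] :
    ∑ χ : IrrP p G, ((deg (χ : G → ℂ) : ZMod p)) ^ 2 = 0 := by
  have := Fintype.ofFinite G
  have : Fintype (Irr G) := Fintype.ofFinite _
  have h1 := congrArg (fun n : ℕ => (n : ZMod p)) (sum_deg_sq (G := G))
  simp only [Nat.cast_sum, Nat.cast_pow] at h1
  rw [(ZMod.natCast_eq_zero_iff _ _).2 hp] at h1
  rw [← h1]
  have h2 : ∑ χ ∈ Finset.univ.filter (fun χ : Irr G => ¬ p ∣ deg (χ : G → ℂ)),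
        ((deg (χ : G → ℂ) : ZMod p)) ^ 2 = ∑ χ : Irr G, ((deg (χ : G → ℂ) : ZMod p)) ^ 2 := by
    apply Finset.sum_subset (Finset.filter_subset _ _)
    intro χ _ hχ
    simp only [Finset.mem_filter, Finset.mem_univ, true_and, not_not] at hχ
    rw [(ZMod.natCast_eq_zero_iff _ _).2 hχ]
    simp
  rw [← h2]
  apply Finset.sum_bij' (i := fun (χ : IrrP p G) _ => (⟨χ.1, χ.2.1⟩ : Irr G))
    (j := fun χ hχ => (⟨χ.1, χ.2, by simpa using hχ⟩ : IrrP p G))
  · intro χ _
    exact Finset.mem_univ _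
  · intro χ _
    rfl
  · intro χ _
    rfl
  · intro χ _
    rfl
  · intro χ _
    simp only [Finset.mem_filter, Finset.mem_univ, true_and]
    exact χ.2.2

/-- number of `p'`-characters with `deg² = s` mod `p` -/
noncomputable def cntSq (p : ℕ) (G : Type*) [Group G] (s : ZMod p) : ℕ :=
  Nat.card {χ : IrrP p G // (deg (χ : G → ℂ) : ZMod p) ^ 2 = s}

theorem cnt_eq (p : ℕ) [Fact p.Prime] (c : ZMod p) : cnt p G c = cntSq p G (c ^ 2) := by
  unfold cnt cntSq
  apply Nat.card_congr
  apply Equiv.subtypeEquivRight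
  intro χ
  exact sq_eq_sq_iff_eq_or_eq_neg.symm

/-- two classes: the relation -/
theorem two_class [Finite G] (p : ℕ) [Fact p.Prime] (hp : p ∣ Nat.card G) (t : ZMod p)
    (ht : t ≠ 1)
    (h : ∀ χ ∈ IrrP p G, (deg χ : ZMod p) ^ 2 = 1 ∨ (deg χ : ZMod p) ^ 2 = t) :
    cntSq p G 1 + cntSq p G t = Nat.card (IrrP p G) ∧
    (cntSq p G 1 : ZMod p) + t * (cntSq p G t : ZMod p) = 0 ∧
    ∀ s, s ≠ 1 → s ≠ t → cntSq p G s = 0 := by
  classical
  have := Fintype.ofFinite (IrrP p G)
  have h1 := sum_sq_zero (G := G) p hp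
  have hsplit : (Finset.univ : Finset (IrrP p G)) =
      Finset.univ.filter (fun χ : IrrP p G => (deg (χ : G → ℂ) : ZMod p) ^ 2 = 1) ∪
      Finset.univ.filter (fun χ : IrrP p G => (deg (χ : G → ℂ) : ZMod p) ^ 2 = t) := by
    ext χ
    simp only [Finset.mem_univ, Finset.mem_union, Finset.mem_filter, true_and, true_iff]
    exact h χ.1 χ.2
  have hdisj : Disjoint
      (Finset.univ.filter (fun χ : IrrP p G => (deg (χ : G → ℂ) : ZMod p) ^ 2 = 1))
      (Finset.univ.filter (fun χ : IrrP p G => (deg (χ : G → ℂ) : ZMod p) ^ 2 = t)) := by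
    rw [Finset.disjoint_filter]
    intro χ _ h1 h2
    exact ht (h2.symm.trans h1)
  have hc : ∀ s : ZMod p, cntSq p G s = (Finset.univ.filter
      (fun χ : IrrP p G => (deg (χ : G → ℂ) : ZMod p) ^ 2 = s)).card := by
    intro s
    rw [cntSq, Nat.card_eq_fintype_card, Fintype.card_subtype]
  refine ⟨?_, ?_, ?_⟩
  · rw [hc, hc, Nat.card_eq_fintype_card, ← Finset.card_union_of_disjoint hdisj, ← hsplit]
    rfl
  · rw [hsplit, Finset.sum_union hdisj] at h1
    rw [Finset.sum_congr rfl (g := fun _ => (1 : ZMod p))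
      (fun χ hχ => (Finset.mem_filter.1 hχ).2)] at h1
    rw [Finset.sum_congr (s₁ := Finset.univ.filter
      (fun χ : IrrP p G => (deg (χ : G → ℂ) : ZMod p) ^ 2 = t)) rfl (g := fun _ => t)
      (fun χ hχ => (Finset.mem_filter.1 hχ).2)] at h1
    rw [Finset.sum_const, Finset.sum_const, nsmul_eq_mul, nsmul_eq_mul, mul_one, ← hc, ← hc] at h1
    rw [mul_comm t]
    exact h1
  · intro s hs1 hst
    rw [hc, Finset.card_eq_zero, Finset.filter_eq_empty_iff]
    intro χ _ hχ
    rcases h χ.1 χ.2 with h2 | h2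
    · exact hs1 (hχ.symm.trans h2)
    · exact hst (hχ.symm.trans h2)

/-- the trivial character is irreducible -/
theorem one_mem_Irr (G : Type*) [Group G] : (fun _ : G => (1 : ℂ)) ∈ Irr G := by
  refine ⟨1, Representation.trivial ℂ G (Fin 1 → ℂ), ?_, ?_⟩
  · rw [isIrreducible_iff]
    refine ⟨inferInstance, ?_⟩
    intro W _
    have h1 : finrank ℂ (Fin 1 → ℂ) = 1 := by simp
    rcases Nat.eq_zero_or_pos (finrank ℂ W) with h | h
    · left
      exact Submodule.finrank_eq_zero.1 h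
    · right
      apply Submodule.eq_top_of_finrank_eq
      have := Submodule.finrank_le W
      omega
  · ext g
    simp [character]

theorem cntSq_one_pos [Finite G] (p : ℕ) [Fact p.Prime] : 1 ≤ cntSq p G 1 := by
  have hd : deg (fun _ : G => (1 : ℂ)) = 1 := by simp [deg]
  have : Nonempty {χ : IrrP p G // (deg (χ : G → ℂ) : ZMod p) ^ 2 = 1} := by
    refine ⟨⟨⟨fun _ => 1, one_mem_Irr G, ?_⟩, ?_⟩⟩
    · rw [hd]
      exact (Fact.out : p.Prime).one_lt.not_ge ∘ Nat.le_of_dvd one_pos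
    · simp [hd]
  exact Nat.card_pos

end Pool.Agent.Helper80
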