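import Mathlib

/-!
Thresholds for set systems with a system of distinct representatives.

`exists_thresholds`: finite sets `Q 0, ..., Q (n-1)` satisfying the condition of Hall admit
thresholds `1 ≤ c i ≤ #(Q i)` with `2 * ∑ c i ≤ n * (n + 1)` such that every finite set `F`
meets at most `#F` of the `Q i` in at least `c i` elements.  Proof: lower the thresholds one
after the other as far as possible; the tight sets that stop the lowering are closed for a
submodular function, and their intersections have small rank.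
-/

namespace Pool.Helper80.Thresh

open Finset

variable {α : Type*} [DecidableEq α]

/-- Size of `F` minus the number of sets `Q j` with `i ≤ j < n` contained in `F`. -/
def sF (n : ℕ) (Q : ℕ → Finset α) (i : ℕ) (F : Finset α) : ℤ :=
  (F.card : ℤ) - (((range n).filter (fun j => i ≤ j ∧ Q j ⊆ F)).card : ℤ)

/-- Every strictly larger set has strictly larger value. -/
def Clos (n : ℕ) (Q : ℕ → Finset α) (i : ℕ) (F : Finset α) : Prop :=
  ∀ G : Finset α, F ⊂ G → sF n Q i F + 1 ≤ sF n Q i G

/-- Number of processed sets met in at least their threshold. -/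
def hF (Q : ℕ → Finset α) (c : ℕ → ℕ) (i : ℕ) (F : Finset α) : ℕ :=
  ((range i).filter (fun a => c a ≤ (Q a ∩ F).card)).card

lemma sF_succ {n : ℕ} {Q : ℕ → Finset α} {i : ℕ} (hi : i < n) (F : Finset α) :
    sF n Q (i + 1) F = sF n Q i F + (if Q i ⊆ F then 1 else 0) := by
  unfold sF
  by_cases h : Q i ⊆ F
  · have : (range n).filter (fun j => i ≤ j ∧ Q j ⊆ F)
        = insert i ((range n).filter (fun j => i + 1 ≤ j ∧ Q j ⊆ F)) := by
      ext j
      simp only [mem_filter, mem_range, mem_insert]
      constructor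
      · rintro ⟨h1, h2, h3⟩
        rcases Nat.eq_or_lt_of_le h2 with h4 | h4
        · left; exact h4.symm
        · right; exact ⟨h1, h4, h3⟩
      · rintro (h1 | ⟨h1, h2, h3⟩)
        · subst h1; exact ⟨hi, le_refl _, h⟩
        · exact ⟨h1, by omega, h3⟩
    rw [this, card_insert_of_notMem (by simp)]
    simp only [h, if_true]
    push_cast
    ring
  · have : (range n).filter (fun j => i ≤ j ∧ Q j ⊆ F)
        = (range n).filter (fun j => i + 1 ≤ j ∧ Q j ⊆ F) := by
      ext j
      simp only [mem_filter, mem_range]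
      constructor
      · rintro ⟨h1, h2, h3⟩
        refine ⟨h1, ?_, h3⟩
        rcases Nat.eq_or_lt_of_le h2 with h4 | h4
        · subst h4; exact absurd h3 h
        · exact h4
      · rintro ⟨h1, h2, h3⟩
        exact ⟨h1, by omega, h3⟩
    rw [this]
    simp [h]

lemma sF_submod (n : ℕ) (Q : ℕ → Finset α) (i : ℕ) (F G : Finset α) :
    sF n Q i (F ∪ G) + sF n Q i (F ∩ G) ≤ sF n Q i F + sF n Q i G := by
  unfold sF
  have h1 : (F ∪ G).card + (F ∩ G).card = F.card + G.card := card_union_add_card_inter F G
  set A := (range n).filter (fun j => i ≤ j ∧ Q j ⊆ F) with hA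
  set B := (range n).filter (fun j => i ≤ j ∧ Q j ⊆ G) with hB
  have h2 : (A ∪ B).card + (A ∩ B).card = A.card + B.card := card_union_add_card_inter A B
  have h3 : A ∪ B ⊆ (range n).filter (fun j => i ≤ j ∧ Q j ⊆ F ∪ G) := by
    intro j hj
    simp only [hA, hB, mem_union, mem_filter, mem_range] at hj ⊢
    rcases hj with ⟨a, b, c⟩ | ⟨a, b, c⟩
    · exact ⟨a, b, c.trans subset_union_left⟩
    · exact ⟨a, b, c.trans subset_union_right⟩
  have h4 : A ∩ B ⊆ (range n).filter (fun j => i ≤ j ∧ Q j ⊆ F ∩ G) := by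
    intro j hj
    simp only [hA, hB, mem_inter, mem_filter, mem_range] at hj ⊢
    exact ⟨hj.1.1, hj.1.2.1, subset_inter hj.1.2.2 hj.2.2.2⟩
  have h5 := card_le_card h3
  have h6 := card_le_card h4
  push_cast [← @Nat.cast_inj ℤ] at *
  omega

lemma sF_diff {n : ℕ} {Q : ℕ → Finset α} {i j : ℕ} (hij : i ≤ j) {F G : Finset α}
    (hFG : F ⊆ G) : sF n Q i G - sF n Q i F ≤ sF n Q j G - sF n Q j F := by
  unfold sF
  set A := (range n).filter (fun l => i ≤ l ∧ Q l ⊆ F) with hA
  set B := (range n).filter (fun l => i ≤ l ∧ Q l ⊆ G) with hB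
  set C := (range n).filter (fun l => j ≤ l ∧ Q l ⊆ F) with hC
  set D := (range n).filter (fun l => j ≤ l ∧ Q l ⊆ G) with hD
  have h1 : A ∪ D ⊆ B := by
    intro l hl
    simp only [hA, hB, hD, mem_union, mem_filter, mem_range] at hl ⊢
    rcases hl with ⟨a, b, c⟩ | ⟨a, b, c⟩
    · exact ⟨a, b, c.trans hFG⟩
    · exact ⟨a, hij.trans b, c⟩
  have h2 : A ∩ D ⊆ C := by
    intro l hl
    simp only [hA, hC, hD, mem_inter, mem_filter, mem_range] at hl ⊢
    exact ⟨hl.1.1, hl.2.2.1, hl.1.2.2⟩
  have h3 : (A ∪ D).card + (A ∩ D).card = A.card + D.card := card_union_add_card_inter A D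
  have h4 := card_le_card h1
  have h5 := card_le_card h2
  omega

lemma Clos.mono {n : ℕ} {Q : ℕ → Finset α} {i j : ℕ} {F : Finset α} (h : Clos n Q i F)
    (hij : i ≤ j) : Clos n Q j F := by
  intro G hG
  have h1 := h G hG
  have h2 := sF_diff (n := n) (Q := Q) hij hG.1
  omega

lemma Clos.inter {n : ℕ} {Q : ℕ → Finset α} {i : ℕ} {F F' : Finset α} (h : Clos n Q i F)
    (h' : Clos n Q i F') : Clos n Q i (F ∩ F') := by
  -- first for sets inside `F`
  have key : ∀ G : Finset α, F ∩ F' ⊂ G → G ⊆ F → sF n Q i (F ∩ F') + 1 ≤ sF n Q i G := by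
    intro G hG hGF
    have e : G ∩ F' = F ∩ F' := by
      apply Subset.antisymm
      · exact inter_subset_inter_right hGF
      · exact subset_inter hG.1 inter_subset_right
    have hs := sF_submod n Q i G F'
    rw [e] at hs
    have h1 : F' ⊂ G ∪ F' := by
      refine ⟨subset_union_right, fun hh => hG.2 ?_⟩
      exact subset_inter hGF (subset_union_left.trans hh)
    have h2 := h' _ h1
    omega
  intro G hG
  by_cases hGF : G ⊆ F
  · exact key G hG hGF
  · have h1 : F ⊂ G ∪ F :=
      ⟨subset_union_right, fun hh => hGF (subset_union_left.trans hh)⟩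
    have h2 := h _ h1
    have hs := sF_submod n Q i G F
    by_cases h3 : G ∩ F = F ∩ F'
    · rw [h3] at hs
      omega
    · have h4 : F ∩ F' ⊂ G ∩ F := by
        refine ⟨subset_inter hG.1 inter_subset_left, fun hh => h3 ?_⟩
        exact Subset.antisymm hh (subset_inter hG.1 inter_subset_left)
      have h5 := key (G ∩ F) h4 inter_subset_right
      omega

/-- The data produced by the first `i` steps. -/
structure Stage (n : ℕ) (Q : ℕ → Finset α) (i : ℕ) (c : ℕ → ℕ) (F : ℕ → Finset α) : Prop where
  one_le : ∀ a < i, 1 ≤ c a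
  le_card : ∀ a < i, c a ≤ (Q a).card
  le_inter : ∀ a < i, c a ≤ (Q a ∩ F a).card + 1
  rank : ∀ a < i, sF n Q (a + 1) (F a) ≤ a
  notSub : ∀ a < i, ¬ Q a ⊆ F a
  clos : ∀ a < i, Clos n Q (a + 1) (F a)
  inv : ∀ G : Finset α, (hF Q c i G : ℤ) ≤ sF n Q i G

lemma hF_mono {Q : ℕ → Finset α} {c : ℕ → ℕ} {i : ℕ} {F G : Finset α} (h : F ⊆ G) :
    hF Q c i F ≤ hF Q c i G := by
  unfold hF
  apply card_le_card
  intro a ha
  simp only [mem_filter, mem_range] at ha ⊢
  exact ⟨ha.1, ha.2.trans (card_le_card (inter_subset_inter_left h))⟩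

lemma hF_le {Q : ℕ → Finset α} {c : ℕ → ℕ} {i : ℕ} {F : Finset α} :
    hF Q c i F ≤ i := by
  unfold hF
  exact (card_filter_le _ _).trans (by simp)

lemma hF_congr {Q : ℕ → Finset α} {c c' : ℕ → ℕ} {i : ℕ} (h : ∀ a < i, c a = c' a)
    (F : Finset α) : hF Q c i F = hF Q c' i F := by
  unfold hF
  congr 1
  apply filter_congr
  intro a ha
  rw [h a (mem_range.1 ha)]

lemma hF_succ {Q : ℕ → Finset α} {c : ℕ → ℕ} {i : ℕ} (F : Finset α) :
    hF Q c (i + 1) F = hF Q c i F + (if c i ≤ (Q i ∩ F).card then 1 else 0) := by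
  unfold hF
  rw [range_add_one, filter_insert]
  by_cases h : c i ≤ (Q i ∩ F).card
  · rw [if_pos h, if_pos h, card_insert_of_notMem (by simp)]
  · rw [if_neg h, if_neg h]; rfl

/-- One step of the lowering. -/
lemma step {n : ℕ} {Q : ℕ → Finset α} {i : ℕ} (hi : i < n) {c : ℕ → ℕ} {F : ℕ → Finset α}
    (S : Stage n Q i c F) : ∃ c' F', Stage n Q (i + 1) c' F' := by
  classical
  -- the admissible thresholds
  let P : ℕ → Prop := fun m => 1 ≤ m ∧ ∀ G : Finset α,
    (hF Q c i G : ℤ) + (if m ≤ (Q i ∩ G).card then 1 else 0) ≤ sF n Q (i + 1) G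
  have hQ : 1 ≤ (Q i).card := by
    rcases Nat.eq_zero_or_pos (Q i).card with h | h
    · have h0 := S.inv ∅
      have h1 : Q i = ∅ := card_eq_zero.1 h
      have h2 : sF n Q i ∅ ≤ -1 := by
        unfold sF
        have : 1 ≤ ((range n).filter (fun j => i ≤ j ∧ Q j ⊆ ∅)).card := by
          apply card_pos.2
          exact ⟨i, by simp [hi, h1]⟩
        simp only [card_empty]
        omega
      have h3 : (0 : ℤ) ≤ (hF Q c i ∅ : ℤ) := by positivity
      omega
    · exact h
  have hfull : P (Q i).card := by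
    refine ⟨hQ, fun G => ?_⟩
    have h0 := S.inv G
    rw [sF_succ hi]
    by_cases h : Q i ⊆ G
    · have : (Q i).card ≤ (Q i ∩ G).card := card_le_card (subset_inter (Subset.refl _) h)
      rw [if_pos this, if_pos h]
      omega
    · have : ¬ (Q i).card ≤ (Q i ∩ G).card := by
        intro h1
        apply h
        have h2 : Q i ∩ G = Q i := eq_of_subset_of_card_le inter_subset_left h1
        intro x hx
        rw [← h2] at hx
        exact (mem_inter.1 hx).2
      rw [if_neg this, if_neg h]
      omega
  obtain ⟨m, hm, hmin⟩ : ∃ m, P m ∧ ∀ m' < m, ¬ P m' :=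
    ⟨Nat.find ⟨_, hfull⟩, Nat.find_spec ⟨_, hfull⟩, fun m' h => Nat.find_min ⟨_, hfull⟩ h⟩
  have hmle : m ≤ (Q i).card := by
    by_contra h
    exact hmin _ (by omega) hfull
  -- tight sets
  let T : Finset α → Prop := fun G => m ≤ (Q i ∩ G).card + 1 ∧ sF n Q (i + 1) G ≤ (hF Q c i G : ℤ)
  have hT : ∃ G, T G := by
    by_cases h1 : m = 1
    · refine ⟨∅, by simp [h1], ?_⟩
      have : sF n Q (i + 1) ∅ ≤ 0 := by
        unfold sF
        simp
      have h3 : (0 : ℤ) ≤ (hF Q c i ∅ : ℤ) := by positivity
      omega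
    · have h2 : ¬ P (m - 1) := hmin _ (by have := hm.1; omega)
      have h3 : 1 ≤ m - 1 := by have := hm.1; omega
      simp only [P, not_and, not_forall, not_le] at h2
      obtain ⟨G, hG⟩ := h2 h3
      have h4 := hm.2 G
      refine ⟨G, ?_, ?_⟩
      · by_contra h5
        rw [if_neg (by omega)] at hG
        rw [if_neg (by omega)] at h4
        omega
      · have h5 : (if m - 1 ≤ (Q i ∩ G).card then (1 : ℤ) else 0) ≤ 1 := by split_ifs <;> simp
        omega
  have hbd : ∀ G, T G → G.card ≤ i + n := by
    intro G hG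
    have h1 := hG.2
    have h2 : hF Q c i G ≤ i := hF_le
    unfold sF at h1
    have h3 : ((range n).filter (fun j => i + 1 ≤ j ∧ Q j ⊆ G)).card ≤ n :=
      (card_filter_le _ _).trans (by simp)
    omega
  obtain ⟨F₀, hF₀, hmax⟩ : ∃ G, T G ∧ ∀ G', T G' → G'.card ≤ G.card := by
    let S' : Set ℕ := {m | ∃ G, T G ∧ G.card = m}
    have hne : S'.Nonempty := by
      obtain ⟨G, hG⟩ := hT
      exact ⟨G.card, G, hG, rfl⟩
    have hb : BddAbove S' := ⟨i + n, by rintro _ ⟨G, hG, rfl⟩; exact hbd G hG⟩
    obtain ⟨G, hG, hGc⟩ := Nat.sSup_mem hne hb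
    refine ⟨G, hG, fun G' hG' => ?_⟩
    rw [hGc]
    exact le_csSup hb ⟨G', hG', rfl⟩
  have hns : ¬ Q i ⊆ F₀ := by
    intro h
    have h1 := S.inv F₀
    have h2 := hF₀.2
    rw [sF_succ hi, if_pos h] at h2
    omega
  have hcl : Clos n Q (i + 1) F₀ := by
    intro G hG
    by_contra h
    have h1 : T G := by
      refine ⟨?_, ?_⟩
      · have := card_le_card (inter_subset_inter (Subset.refl (Q i)) hG.1)
        have h2 := hF₀.1
        omega
      · have h2 := hF₀.2
        have h3 : hF Q c i F₀ ≤ hF Q c i G := hF_mono hG.1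
        omega
    have h2 := hmax G h1
    have h3 := card_lt_card hG
    omega
  refine ⟨Function.update c i m, Function.update F i F₀, ?_⟩
  have hc : ∀ a < i, Function.update c i m a = c a := fun a ha =>
    Function.update_of_ne (by omega) _ _
  have hFa : ∀ a < i, Function.update F i F₀ a = F a := fun a ha =>
    Function.update_of_ne (by omega) _ _
  constructor
  · intro a ha
    rcases Nat.lt_succ_iff_lt_or_eq.1 ha with h | h
    · rw [hc a h]; exact S.one_le a h
    · subst h; rw [Function.update_self]; exact hm.1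
  · intro a ha
    rcases Nat.lt_succ_iff_lt_or_eq.1 ha with h | h
    · rw [hc a h]; exact S.le_card a h
    · subst h; rw [Function.update_self]; exact hmle
  · intro a ha
    rcases Nat.lt_succ_iff_lt_or_eq.1 ha with h | h
    · rw [hc a h, hFa a h]; exact S.le_inter a h
    · subst h; rw [Function.update_self, Function.update_self]; exact hF₀.1
  · intro a ha
    rcases Nat.lt_succ_iff_lt_or_eq.1 ha with h | h
    · rw [hFa a h]; exact S.rank a h
    · subst h
      rw [Function.update_self]
      have h2 := hF₀.2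
      have h3 : hF Q c a F₀ ≤ a := hF_le
      omega
  · intro a ha
    rcases Nat.lt_succ_iff_lt_or_eq.1 ha with h | h
    · rw [hFa a h]; exact S.notSub a h
    · subst h; rw [Function.update_self]; exact hns
  · intro a ha
    rcases Nat.lt_succ_iff_lt_or_eq.1 ha with h | h
    · rw [hFa a h]; exact S.clos a h
    · subst h; rw [Function.update_self]; exact hcl
  · intro G
    rw [hF_succ, hF_congr hc, Function.update_self]
    have := hm.2 G
    push_cast
    exact this

lemma exists_stage {n : ℕ} {Q : ℕ → Finset α}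
    (hall : ∀ F : Finset α, ((range n).filter (fun j => Q j ⊆ F)).card ≤ F.card) :
    ∀ i ≤ n, ∃ c F, Stage n Q i c F := by
  intro i
  induction i with
  | zero =>
    intro _
    refine ⟨fun _ => 0, fun _ => ∅, ?_⟩
    constructor
    · intro a ha; omega
    · intro a ha; omega
    · intro a ha; omega
    · intro a ha; omega
    · intro a ha; omega
    · intro a ha; omega
    · intro G
      have h1 := hall G
      have h2 : hF Q (fun _ => 0) 0 G = 0 := by
        have : hF Q (fun _ => 0) 0 G ≤ 0 := hF_le
        omega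
      rw [h2]
      unfold sF
      simp only [Nat.zero_le, true_and]
      push_cast
      omega
  | succ i ih =>
    intro hi
    obtain ⟨c, F, S⟩ := ih (by omega)
    exact step (by omega) S

/-- Intersections of the tight sets have small rank. -/
lemma inter_rank {n : ℕ} {Q : ℕ → Finset α} {c : ℕ → ℕ} {F : ℕ → Finset α}
    (S : Stage n Q n c F) : ∀ i ≤ n, ∀ I : Finset ℕ, I ⊆ range i → I.Nonempty →
    ∃ G : Finset α, (∀ x, x ∈ G ↔ ∀ a ∈ I, x ∈ F a) ∧ Clos n Q i G ∧
      sF n Q i G + I.card ≤ i := by
  intro i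
  induction i with
  | zero =>
    intro _ I hI hne
    obtain ⟨a, ha⟩ := hne
    have := hI ha
    simp at this
  | succ i ih =>
    intro hin I hI hne
    have hi : i < n := by omega
    by_cases hiI : i ∈ I
    · set I' := I.erase i with hI'
      have hcard : I'.card + 1 = I.card := card_erase_add_one hiI
      have hI's : I' ⊆ range i := by
        intro a ha
        rw [hI', mem_erase] at ha
        have := mem_range.1 (hI ha.2)
        rw [mem_range]
        omega
      by_cases hne' : I'.Nonempty
      · obtain ⟨G, hG, hcl, hr⟩ := ih (by omega) I' hI's hne'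
        have hclG := hcl.mono (Nat.le_succ i)
        have hclF := S.clos i hi
        refine ⟨F i ∩ G, ?_, hclF.inter hclG, ?_⟩
        · intro x
          rw [mem_inter, hG]
          constructor
          · rintro ⟨h1, h2⟩ a ha
            by_cases h : a = i
            · rw [h]; exact h1
            · exact h2 a (mem_erase.2 ⟨h, ha⟩)
          · intro h
            exact ⟨h i hiI, fun a ha => h a (mem_erase.1 ha).2⟩
        · have hsucc := sF_succ (Q := Q) hi G
          by_cases hsub : G ⊆ F i
          · have e : F i ∩ G = G := inter_eq_right.2 hsub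
            have hq : ¬ Q i ⊆ G := fun h => S.notSub i hi (h.trans hsub)
            rw [if_neg hq] at hsucc
            rw [e]
            push_cast
            omega
          · have hlt : F i ∩ G ⊂ G :=
              ⟨inter_subset_right, fun h => hsub (h.trans inter_subset_left)⟩
            have h1 := (hclF.inter hclG) G hlt
            have h2 : (if Q i ⊆ G then (1 : ℤ) else 0) ≤ 1 := by split_ifs <;> simp
            push_cast
            omega
      · have he : I' = ∅ := not_nonempty_iff_eq_empty.1 hne'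
        have hI1 : I = {i} := by
          apply Subset.antisymm
          · intro a ha
            by_contra h
            rw [mem_singleton] at h
            have : a ∈ I' := mem_erase.2 ⟨h, ha⟩
            rw [he] at this
            simp at this
          · exact singleton_subset_iff.2 hiI
        refine ⟨F i, ?_, S.clos i hi, ?_⟩
        · intro x
          rw [hI1]
          simp
        · have := S.rank i hi
          rw [hI1, card_singleton]
          push_cast
          omega
    · have hI's : I ⊆ range i := by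
        intro a ha
        have h1 := mem_range.1 (hI ha)
        rw [mem_range]
        have : a ≠ i := fun h => hiI (h ▸ ha)
        omega
      obtain ⟨G, hG, hcl, hr⟩ := ih (by omega) I hI's hne
      refine ⟨G, hG, hcl.mono (Nat.le_succ i), ?_⟩
      have hsucc := sF_succ (Q := Q) hi G
      have h2 : (if Q i ⊆ G then (1 : ℤ) else 0) ≤ 1 := by split_ifs <;> simp
      push_cast
      omega

/-- The bound for one threshold. -/
lemma thr_le {n : ℕ} {Q : ℕ → Finset α} {c : ℕ → ℕ} {F : ℕ → Finset α}
    (S : Stage n Q n c F) {j : ℕ} (hj : j < n) :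
    c j ≤ 1 + ((range j).filter (fun a => ¬ Q j ⊆ F a)).card
      + ((range n).filter (fun l => j + 1 ≤ l ∧ Q l ⊆ F j)).card := by
  classical
  set J := (range j).filter (fun a => Q j ⊆ F a) with hJ
  have hjJ : j ∉ J := by simp [hJ]
  set I := insert j J with hI
  have hIs : I ⊆ range (j + 1) := by
    intro a ha
    rw [hI, mem_insert] at ha
    rcases ha with h | h
    · rw [h]; simp
    · have := mem_range.1 (mem_filter.1 h).1
      rw [mem_range]; omega
  obtain ⟨G, hG, -, hr⟩ := inter_rank S (j + 1) (by omega) I hIs ⟨j, mem_insert_self _ _⟩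
  have hIc : I.card = J.card + 1 := card_insert_of_notMem hjJ
  have hGF : G ⊆ F j := fun x hx => (hG x).1 hx j (mem_insert_self _ _)
  have hQ : Q j ∩ F j ⊆ G := by
    intro x hx
    rw [mem_inter] at hx
    rw [hG]
    intro a ha
    rcases mem_insert.1 ha with h | h
    · rw [h]; exact hx.2
    · exact (mem_filter.1 h).2 hx.1
  have h1 := card_le_card hQ
  have h2 := S.le_inter j hj
  have h3 : ((range n).filter (fun l => j + 1 ≤ l ∧ Q l ⊆ G)).card
      ≤ ((range n).filter (fun l => j + 1 ≤ l ∧ Q l ⊆ F j)).card := by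
    apply card_le_card
    intro l hl
    simp only [mem_filter, mem_range] at hl ⊢
    exact ⟨hl.1, hl.2.1, hl.2.2.trans hGF⟩
  have h4 : J.card + ((range j).filter (fun a => ¬ Q j ⊆ F a)).card = j := by
    have := card_filter_add_card_filter_not (s := range j) (fun a => Q j ⊆ F a)
    rw [card_range] at this
    exact this
  unfold sF at hr
  rw [hIc] at hr
  push_cast at hr
  omega

/-- The sum of the thresholds. -/
lemma sum_le {n : ℕ} {Q : ℕ → Finset α} {c : ℕ → ℕ} {F : ℕ → Finset α}
    (S : Stage n Q n c F) : 2 * ∑ j ∈ range n, c j ≤ n * (n + 1) := by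
  have h1 : ∑ j ∈ range n, c j ≤ ∑ j ∈ range n,
      (1 + ((range j).filter (fun a => ¬ Q j ⊆ F a)).card
      + ((range n).filter (fun l => j + 1 ≤ l ∧ Q l ⊆ F j)).card) :=
    sum_le_sum fun j hj => thr_le S (mem_range.1 hj)
  have h2 : ∑ j ∈ range n, ((range n).filter (fun l => j + 1 ≤ l ∧ Q l ⊆ F j)).card
      = ∑ l ∈ range n, ((range l).filter (fun j => Q l ⊆ F j)).card := by
    simp only [card_eq_sum_ones]
    apply sum_comm'
    intro j l
    simp only [mem_filter, mem_range]
    constructor
    · rintro ⟨a, b, c, d⟩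
      exact ⟨⟨by omega, d⟩, b⟩
    · rintro ⟨⟨a, b⟩, c⟩
      exact ⟨by omega, c, by omega, b⟩
  have h3 : ∑ j ∈ range n, (1 + ((range j).filter (fun a => ¬ Q j ⊆ F a)).card
      + ((range n).filter (fun l => j + 1 ≤ l ∧ Q l ⊆ F j)).card)
      = ∑ j ∈ range n, (1 + j) := by
    rw [sum_add_distrib, h2, ← sum_add_distrib]
    apply sum_congr rfl
    intro j _
    have := card_filter_add_card_filter_not (s := range j) (fun a => Q j ⊆ F a)
    rw [card_range] at this
    omega
  rw [h3, sum_add_distrib] at h1
  have h4 := sum_range_id_mul_two n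
  simp only [sum_const, card_range, smul_eq_mul, mul_one] at h1
  rcases Nat.eq_zero_or_pos n with h | h
  · subst h
    simp
  · obtain ⟨k, rfl⟩ : ∃ k, n = k + 1 := ⟨n - 1, by omega⟩
    simp only [Nat.add_sub_cancel] at h4
    nlinarith

/-- **Thresholds.** Sets `Q 0, ..., Q (n-1)` with the condition of Hall admit thresholds
of total at most `n (n+1) / 2` such that every finite set `F` reaches at most `#F` of them. -/
theorem exists_thresholds (n : ℕ) (Q : ℕ → Finset α)
    (hall : ∀ F : Finset α, ((range n).filter (fun j => Q j ⊆ F)).card ≤ F.card) :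
    ∃ c : ℕ → ℕ, (∀ i < n, 1 ≤ c i ∧ c i ≤ (Q i).card) ∧
      2 * ∑ i ∈ range n, c i ≤ n * (n + 1) ∧
      ∀ F : Finset α, ((range n).filter (fun i => c i ≤ (Q i ∩ F).card)).card ≤ F.card := by
  obtain ⟨c, F, S⟩ := exists_stage hall n le_rfl
  refine ⟨c, fun i hi => ⟨S.one_le i hi, S.le_card i hi⟩, sum_le S, fun G => ?_⟩
  have h1 := S.inv G
  unfold sF hF at h1
  have h2 : ((range n).filter (fun j => n ≤ j ∧ Q j ⊆ G)).card = 0 := by
    rw [card_eq_zero, filter_eq_empty_iff]
    rintro j hj ⟨h, -⟩
    exact absurd (mem_range.1 hj) (by omega)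
  rw [h2] at h1
  omega

end Pool.Helper80.Thresh
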